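import Pool.Agent.H933.RN.Stm

/-!
# Project RN, job P_left: good points pass to operators similar to restrictions (helper686)
-/

set_option autoImplicit false

open MeasureTheory Metric
open scoped Real

namespace Pool.Agent.H686.RN

open Pool.Agent.H933.RN Pool.Agent.H933.LL

/-- **P_left** -/
theorem p_left : P_left := by
  intro G V _ _ _ _ _ _ C A j l z₀ r hl h hr hA0 hC
  obtain ⟨q, r', hq, hr', h0, hI⟩ := hC
  have hest : ∀ z, z ∈ resolventSet ℂ C → z ∈ resolventSet ℂ A →
      ‖resolvent A z‖ ≤ ‖l‖ * ‖j‖ * ‖resolvent C z‖ := by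
    intro z hz1 hz2
    obtain ⟨a1, a2⟩ := Pool.Agent.K4H63.RC.res_apply hz1
    obtain ⟨b1, b2⟩ := Pool.Agent.K4H63.RC.res_apply hz2
    refine ContinuousLinearMap.opNorm_le_bound _ (by positivity) fun x => ?_
    have e1 : resolvent C z (j x) = j (resolvent A z x) := by
      have e2 : j x = z • j (resolvent A z x) - C (j (resolvent A z x)) := by
        rw [h, ← map_smul, ← map_sub, b1]
      conv_lhs => rw [e2]
      rw [a2]
    calc ‖resolvent A z x‖ = ‖l (j (resolvent A z x))‖ := by rw [hl]
      _ = ‖l (resolvent C z (j x))‖ := by rw [e1]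
      _ ≤ ‖l‖ * (‖resolvent C z‖ * (‖j‖ * ‖x‖)) := by
          refine (l.le_opNorm _).trans ?_
          gcongr
          refine ((resolvent C z).le_opNorm _).trans ?_
          gcongr
          exact j.le_opNorm x
      _ = _ := by ring
  obtain ⟨κ, hκ⟩ : ∃ κ : ℝ, κ = Real.log 2 + Real.posLog (Real.posLog (‖l‖ * ‖j‖)) := ⟨_, rfl⟩
  have hκ0 : 0 ≤ κ := by
    rw [hκ]
    have := Real.log_nonneg (by norm_num : (1 : ℝ) ≤ 2)
    have := Real.posLog_nonneg (x := Real.posLog (‖l‖ * ‖j‖))
    linarith
  have hpt : ∀ x y : ℝ, 0 ≤ x → x ≤ ‖l‖ * ‖j‖ * y →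
      Real.posLog (Real.posLog x) ≤ κ + Real.posLog (Real.posLog y) := by
    intro x y hx hxy
    have h1 : Real.posLog x ≤ Real.posLog (‖l‖ * ‖j‖) + Real.posLog y :=
      (Real.posLog_le_posLog hx hxy).trans Real.posLog_mul
    have h2 := Real.posLog_le_posLog Real.posLog_nonneg h1
    have h3 := Real.posLog_add (x := Real.posLog (‖l‖ * ‖j‖)) (y := Real.posLog y)
    rw [hκ]
    linarith
  refine ⟨q, min r r', hq, lt_min hr hr', ?_, ?_⟩
  · exact measure_mono_null
      (Set.inter_subset_inter_right _ (ball_subset_ball (min_le_left _ _))) hA0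
  · have hI' : IntegrableOn (fun z => (Real.posLog (Real.posLog ‖resolvent C z‖)) ^ q)
        (ball z₀ (min r r')) := hI.mono_set (ball_subset_ball (min_le_right _ _))
    have h1 : IntegrableOn (fun z : ℂ => 2 ^ (q - 1) * (κ ^ q +
        (Real.posLog (Real.posLog ‖resolvent C z‖)) ^ q)) (ball z₀ (min r r')) :=
      ((integrableOn_const (measure_ball_lt_top.ne)).add hI').const_mul _
    refine Integrable.mono' h1 ?_ ?_
    · refine (Measurable.pow_const ?_ q).aestronglyMeasurable
      exact Real.continuous_posLog.measurable.comp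
        (Real.continuous_posLog.measurable.comp (measurable_resolvent_norm A))
    · have hae : ∀ᵐ z ∂(volume.restrict (ball z₀ (min r r'))), z ∉ spectrum ℂ C ∧
          z ∉ spectrum ℂ A := by
        have hs : MeasurableSet (ball z₀ (min r r')) := isOpen_ball.measurableSet
        have m1 : ∀ᵐ z ∂(volume.restrict (ball z₀ (min r r'))), z ∉ spectrum ℂ C := by
          rw [ae_restrict_iff' hs]
          have h2 := measure_eq_zero_iff_ae_notMem.mp h0
          filter_upwards [h2] with z hz hz1 hz2
          exact hz ⟨hz2, ball_subset_ball (min_le_right _ _) hz1⟩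
        have m2 : ∀ᵐ z ∂(volume.restrict (ball z₀ (min r r'))), z ∉ spectrum ℂ A := by
          rw [ae_restrict_iff' hs]
          have h2 := measure_eq_zero_iff_ae_notMem.mp hA0
          filter_upwards [h2] with z hz hz1 hz2
          exact hz ⟨hz2, ball_subset_ball (min_le_left _ _) hz1⟩
        exact m1.and m2
      filter_upwards [hae] with z hz
      have hz1 : z ∈ resolventSet ℂ C := by
        by_contra h'
        exact hz.1 h'
      have hz2 : z ∈ resolventSet ℂ A := by
        by_contra h'
        exact hz.2 h'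
      have h3 := hpt _ _ (norm_nonneg (resolvent A z)) (hest z hz1 hz2)
      have h4 : 0 ≤ Real.posLog (Real.posLog ‖resolvent A z‖) := Real.posLog_nonneg
      have h5 : 0 ≤ Real.posLog (Real.posLog ‖resolvent C z‖) := Real.posLog_nonneg
      rw [Real.norm_eq_abs, abs_of_nonneg (Real.rpow_nonneg h4 q)]
      refine (Real.rpow_le_rpow h4 h3 (by linarith)).trans ?_
      exact add_rpow_le hκ0 h5 hq.le

end Pool.Agent.H686.RN
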